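import Pool.Agent.H31.DOm

set_option autoImplicit false

open Pool.Agent.H31.DOm

theorem Pool.Agent.Results.MP_549d70_gt.Q1.result (X : Type*) [TopologicalSpace X] :
    (∀ 𝒰 : ℕ → Set (Set X), (∀ n, D (𝒰 n)) →
      ∃ U : ℕ → Set X, (∀ n, U n ∈ 𝒰 n) ∧ D (Set.range U)) ↔
    (∀ σ : List (Set X) → Set (Set X),
      (∀ (U : ℕ → Set X) (n : ℕ), (∀ k < n, U k ∈ σ ((List.range k).map U)) →
        D (σ ((List.range n).map U))) →
      ∃ U : ℕ → Set X, (∀ n, U n ∈ σ ((List.range n).map U)) ∧ D (Set.range U)) :=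
  ⟨fun h => reach (R := fun U 𝒰 => U ∈ 𝒰) (Win := fun U => D (Set.range U)) (game1_total h),
    fun h 𝒰 h1 => by simpa using h (fun l => 𝒰 l.length) fun _ _ _ => h1 _⟩
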