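import Pool.Agent.H31.DOm

set_option autoImplicit false

open Pool.Agent.H31.DOm

theorem Pool.Agent.Results.MP_549d70_gt.Q2.result (X : Type*) [TopologicalSpace X] :
    (∀ 𝒰 : ℕ → Set (Set X), (∀ n, D (𝒰 n)) →
      ∃ ℱ : ℕ → Set (Set X), (∀ n, (ℱ n).Finite ∧ ℱ n ⊆ 𝒰 n) ∧ D (⋃ n, ℱ n)) ↔
    (∀ σ : List (Set (Set X)) → Set (Set X),
      (∀ (ℱ : ℕ → Set (Set X)) (n : ℕ),
        (∀ k < n, (ℱ k).Finite ∧ ℱ k ⊆ σ ((List.range k).map ℱ)) →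
        D (σ ((List.range n).map ℱ))) →
      ∃ ℱ : ℕ → Set (Set X), (∀ n, (ℱ n).Finite ∧ ℱ n ⊆ σ ((List.range n).map ℱ)) ∧
        D (⋃ n, ℱ n)) :=
  ⟨fun h => reach (R := fun ℱ 𝒰 => ℱ.Finite ∧ ℱ ⊆ 𝒰) (Win := fun ℱ => D (⋃ n, ℱ n))
      (gamefin_total h),
    fun h 𝒰 h1 => by simpa using h (fun l => 𝒰 l.length) fun _ _ _ => h1 _⟩
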